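import Mathlib
import Pool.Agent.Helper36.Ses.Public
import Pool.Agent.Helper36.Ses.SeshadriDefs
import Pool.Agent.Helper36.Ses.Main
import Pool.Agent.Helper38.SesNonneg

/-!
# A smooth projective surface with global Seshadri constant zero

The surface is `X = E × B ⊆ ℙ¹⁴` over an algebraically closed field `k` of characteristic `7`,
with `E : y² = x³ + 1` and `B : w² = z⁶ + 1`, the point is `a = (O, (0,1))`.

All definitions are in the file `Ses/Public.lean`: varieties, curves, line bundles, ampleness,
intersection numbers, smooth surfaces, multiplicities and Seshadri constants.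
-/

open Seshadri

/-- Over every algebraically closed field of characteristic `7` there is a smooth projective
surface `X` with `ε(X) = 0`. There is even a closed point `a` of `X` with
`ε(X, a) = inf {ε(L, a) : L ample} = 0`. -/
theorem Pool.Agent.Results.MP_ae1e08_ag.GlobalSeshadriZero.result
    (k : Type) [Field k] [IsAlgClosed k] [CharP k 7] :
    ∃ X : ProjVar k (Fin 3 × Fin 5), X.SmoothSurface ∧ X.globalSeshadri = 0 ∧
      ∃ a : X.Point, X.seshadriAt a = 0 := by
  obtain ⟨g⟩ := nonempty_genPt k
  obtain ⟨D⟩ := nonempty_wData k 1 one_pos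
  obtain ⟨b⟩ := nonempty_wPoint one_pos D
  obtain ⟨a, ha⟩ := exists_origin g one_pos D b
  have h1 : (surf g).seshadriAt a ≤ 0 :=
    (surf g).seshadriAt_le_zero fun δ hδ => by
      obtain ⟨L, hL, C, hC, m, hm, hle, hlt⟩ := exists_small g a ha δ hδ
      exact ⟨L, hL, C, hC, m, hm, by rw [C.multiplicity_eq]; exact hle, hlt⟩
  have h2 : 0 ≤ (surf g).globalSeshadri :=
    (surf g).globalSeshadri_nonneg fun L hL C => hL.inter_nonneg C
  have h3 := (surf g).globalSeshadri_le a
  exact ⟨surf g, (surf_smooth g).smoothSurface, le_antisymm (h3.trans h1) h2, a, le_antisymm h1 (h2.trans h3)⟩
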